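import Pool.Agent.helper41.CL.SpecC

set_option autoImplicit false

namespace Pool.Agent.helper41.CL

open Finset

theorem EC_gr {α : Type} [DecidableEq α] {V : Finset α} {E : Finset (Finset α)} (h : Gr V E) (p : α) :
    Gr (V.erase p) (E.filter fun e => p ∉ e) := by
  intro e he
  rw [mem_filter] at he
  refine ⟨fun x hx => mem_erase.2 ⟨fun hxp => he.2 (hxp ▸ hx), (h e he.1).1 hx⟩, (h e he.1).2⟩

theorem EC_memV {α : Type} [DecidableEq α] {V : Finset α} {E : Finset (Finset α)} (h : Gr V E) {p : α}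
    (hp : 1 ≤ #(inc E p)) : p ∈ V := by
  obtain ⟨e, he⟩ := card_pos.1 hp
  unfold inc at he
  rw [mem_filter] at he
  exact (h e he.1).1 he.2

theorem EC_card {α : Type} [DecidableEq α] (E : Finset (Finset α)) (p : α) :
    #(inc E p) + #(E.filter fun e => p ∉ e) = #E := by
  unfold inc
  exact card_filter_add_card_filter_not (s := E) (fun e => p ∈ e)

theorem EC_mem {α : Type} [DecidableEq α] {E : Finset (Finset α)} {p : α} {f : Finset α} :
    f ∈ inc E p ↔ f ∈ E ∧ p ∈ f := by
  unfold inc
  exact mem_filter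

theorem EC_pair {α : Type} [DecidableEq α] {V : Finset α} {E : Finset (Finset α)} (h : Gr V E) {p : α}
    {f : Finset α} (hf : f ∈ E) (hp : p ∈ f) : ∃ a, a ≠ p ∧ f = {p, a} ∧ a ∈ V := by
  obtain ⟨x, y, hxy, hfx⟩ := card_eq_two.1 (h f hf).2
  have hs := (h f hf).1
  rw [hfx, mem_insert, mem_singleton] at hp
  rcases hp with rfl | rfl
  · exact ⟨y, hxy.symm, hfx, hs (by rw [hfx]; simp)⟩
  · exact ⟨x, hxy, by rw [hfx, pair_comm], hs (by rw [hfx]; simp)⟩

theorem EC_two {α : Type} [DecidableEq α] {V : Finset α} {E : Finset (Finset α)} (h5 : SD_stmt)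
    (hG : Gr V E) (hV : #V + 1 = 2 * #E) {y : α} (hy : y ∈ V) (hy0 : inc E y = ∅)
    (hd : ∀ p, #(inc E p) ≤ 2) : ∃ p q, p ≠ q ∧ #(inc E p) = 2 ∧ #(inc E q) = 2 := by
  have hs := h5 α V E hG
  rw [← Finset.add_sum_erase V (fun x => #(inc E x)) hy] at hs
  have hy1 : #(inc E y) = 0 := by
    rw [hy0]
    rfl
  have hle : ∑ x ∈ V.erase y, #(inc E x) ≤
      ∑ x ∈ V.erase y, (1 + if #(inc E x) = 2 then 1 else 0) := by
    apply Finset.sum_le_sum
    intro x _
    have := hd x
    split_ifs with h
    · omega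
    · omega
  rw [Finset.sum_add_distrib, Finset.sum_const, smul_eq_mul, mul_one, card_erase_of_mem hy,
    ← Finset.card_filter] at hle
  simp only [hy1] at hs
  have h1 : 0 < #V := card_pos.2 ⟨y, hy⟩
  have h2 : 1 < #((V.erase y).filter fun x => #(inc E x) = 2) := by omega
  obtain ⟨p, hp, q, hq, hpq⟩ := Finset.one_lt_card.1 h2
  exact ⟨p, q, hpq, (mem_filter.1 hp).2, (mem_filter.1 hq).2⟩

theorem EC (h1 : AZ_stmt) (h2 : AO_stmt) (h3 : SP_stmt) (h4 : WO_stmt) (h5 : EA_stmt) (h6 : SD_stmt) :
    EC_stmt := by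
  intro α _ V E hG hE3 hV hy
  obtain ⟨y, hyV, hy0⟩ := hy
  by_cases hbig : ∃ p, 3 ≤ #(inc E p)
  · obtain ⟨p, hp⟩ := hbig
    have hpV : p ∈ V := EC_memV hG (by omega)
    obtain ⟨m, hm⟩ : ∃ m, #E = m + 3 := ⟨#E - 3, by omega⟩
    have hc := EC_card E p
    have hsp := h3 α V E p (m + 1) hpV
    have hVe : #(V.erase p) = 2 * m + 4 := by
      rw [card_erase_of_mem hpV]
      omega
    have hao := h2 α (V.erase p) (E.filter fun e => p ∉ e) m (EC_gr hG p) (by omega) (by omega)
    have e0 : 2 * (2 * m + 4) - 3 * m = m + 8 := by omega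
    have e1 : m + 3 - 1 = m + 1 + 1 := by omega
    rw [hVe, e0] at hao
    rw [hm, e1, hsp]
    have e2 : 2 ^ (m + 3) = 8 * 2 ^ m := by ring
    rw [e2]
    have h0 : 0 < 2 ^ m := by positivity
    nlinarith
  · have hd : ∀ p, #(inc E p) ≤ 2 := by
      intro p
      by_contra h
      exact hbig ⟨p, by omega⟩
    obtain ⟨p, q, hpq, hp, hq⟩ := EC_two h6 hG (by omega) hyV hy0 hd
    have hpV : p ∈ V := EC_memV hG (by omega)
    have hqV : q ∈ V := EC_memV hG (by omega)
    have hcp := EC_card E p
    by_cases hE : ({p, q} : Finset α) ∈ E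
    · have hpqi : ({p, q} : Finset α) ∈ inc E p := EC_mem.2 ⟨hE, by simp⟩
      have hc1 : #((inc E p).erase {p, q}) = 1 := by
        rw [card_erase_of_mem hpqi, hp]
      obtain ⟨g, hg⟩ := card_eq_one.1 hc1
      have hgm : g ∈ (inc E p).erase {p, q} := by
        rw [hg]
        simp
      rw [mem_erase, EC_mem] at hgm
      obtain ⟨hgne, hgE, hpg⟩ := hgm
      obtain ⟨b, hbp, hgb, hbV⟩ := EC_pair hG hgE hpg
      have hqb : q ≠ b := by
        intro h
        apply hgne
        rw [hgb, h]
      have hall : ∀ e ∈ E, p ∈ e → e = {p, q} ∨ e = {p, b} := by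
        intro e he hpe
        by_cases h : e = {p, q}
        · exact Or.inl h
        · right
          have hm : e ∈ (inc E p).erase {p, q} := mem_erase.2 ⟨h, EC_mem.2 ⟨he, hpe⟩⟩
          rw [hg, mem_singleton] at hm
          exact hm.trans hgb
      -- a second member with `q`
      have hqpi : ({p, q} : Finset α) ∈ inc E q := EC_mem.2 ⟨hE, by simp⟩
      have hc2 : #((inc E q).erase {p, q}) = 1 := by
        rw [card_erase_of_mem hqpi, hq]
      obtain ⟨f, hf⟩ := card_eq_one.1 hc2
      have hfm : f ∈ (inc E q).erase {p, q} := by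
        rw [hf]
        simp
      rw [mem_erase, EC_mem] at hfm
      obtain ⟨hfne, hfE, hqf⟩ := hfm
      have hpf : p ∉ f := by
        intro hpf
        rcases hall f hfE hpf with h | h
        · exact hfne h
        · rw [h, mem_insert, mem_singleton] at hqf
          rcases hqf with h' | h'
          · exact hpq h'.symm
          · exact hqb h'
      obtain ⟨m, hm⟩ : ∃ m, #E = m + 3 := ⟨#E - 3, by omega⟩
      have hE1 : #(E.filter fun e => p ∉ e) = m + 1 := by omega
      have hsp := h3 α V E p (m + 1) hpV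
      have hVe : #(V.erase p) = 2 * m + 4 := by
        rw [card_erase_of_mem hpV]
        omega
      have haz := h1 α (V.erase p) (E.filter fun e => p ∉ e) (m + 1) (EC_gr hG p) (by omega) (by omega)
      have hwo := h4 α V E p q b m hqV hbV hpq hbp.symm hqb hall
      have hV0 : #(V \ {p, q, b}) = 2 * m + 2 := by
        rw [card_sdiff_of_subset]
        · rw [card_eq_three.2 ⟨p, q, b, hpq, hbp.symm, hqb, rfl⟩]
          omega
        · intro x hx
          rw [mem_insert, mem_insert, mem_singleton] at hx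
          rcases hx with rfl | rfl | rfl
          · exact hpV
          · exact hqV
          · exact hbV
      have hG0 : Gr (V \ {p, q, b}) (E.filter fun e => p ∉ e ∧ q ∉ e ∧ b ∉ e) := by
        intro e he
        rw [mem_filter] at he
        refine ⟨fun x hx => ?_, (hG e he.1).2⟩
        rw [mem_sdiff, mem_insert, mem_insert, mem_singleton]
        refine ⟨(hG e he.1).1 hx, ?_⟩
        rintro (h | h | h)
        · exact he.2.1 (h ▸ hx)
        · exact he.2.2.1 (h ▸ hx)
        · exact he.2.2.2 (h ▸ hx)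
      have hsub : (E.filter fun e => p ∉ e ∧ q ∉ e ∧ b ∉ e) ⊆ E.filter fun e => p ∉ e := by
        intro e he
        rw [mem_filter] at he ⊢
        exact ⟨he.1, he.2.1⟩
      have hlt : #(E.filter fun e => p ∉ e ∧ q ∉ e ∧ b ∉ e) < #(E.filter fun e => p ∉ e) := by
        refine card_lt_card (hsub.ssubset_of_ne fun heq => ?_)
        have hmem : f ∈ E.filter fun e => p ∉ e := mem_filter.2 ⟨hfE, hpf⟩
        rw [← heq, mem_filter] at hmem
        exact hmem.2.2.1 hqf
      have haz0 := h1 α (V \ {p, q, b}) (E.filter fun e => p ∉ e ∧ q ∉ e ∧ b ∉ e) m hG0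
        (by omega) (by omega)
      have hN2 := haz0.trans hwo
      have e1 : m + 3 - 1 = m + 1 + 1 := by omega
      rw [hm, e1, hsp]
      have e2 : 2 ^ (m + 3) = 8 * 2 ^ m := by ring
      have e3 : 2 ^ (m + 1) = 2 * 2 ^ m := by ring
      rw [e3] at haz
      rw [e2]
      have e4 : m + 2 = m + 1 + 1 := by omega
      rw [e4] at hN2
      omega
    · -- no member contains both
      have hno : ∀ f ∈ E, p ∈ f → q ∉ f := by
        intro f hf hpf hqf
        obtain ⟨a, ha, hfa, _⟩ := EC_pair hG hf hpf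
        rw [hfa, mem_insert, mem_singleton] at hqf
        rcases hqf with h | h
        · exact hpq h.symm
        · rw [h] at hE
          exact hE (hfa ▸ hf)
      have hinc : inc (E.filter fun e => p ∉ e) q = inc E q := by
        unfold inc
        ext f
        simp only [mem_filter]
        constructor
        · rintro ⟨⟨a, _⟩, b⟩
          exact ⟨a, b⟩
        · rintro ⟨a, b⟩
          exact ⟨⟨a, fun hpf => hno f a hpf b⟩, b⟩
      have hq1 : 2 ≤ #(E.filter fun e => p ∉ e) := by
        have := EC_card (E.filter fun e => p ∉ e) q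
        rw [hinc] at this
        omega
      obtain ⟨m, hm⟩ : ∃ m, #E = m + 4 := ⟨#E - 4, by omega⟩
      have hE1 : #(E.filter fun e => p ∉ e) = m + 2 := by omega
      have hsp := h3 α V E p (m + 2) hpV
      have hVe : #(V.erase p) = 2 * m + 6 := by
        rw [card_erase_of_mem hpV]
        omega
      have hea := h5 α (V.erase p) (E.filter fun e => p ∉ e) q (EC_gr hG p) (by rw [hinc, hq])
        (by omega)
      have e0 : 2 * (2 * m + 6) - 3 * (m + 2) + 6 = m + 12 := by omega
      rw [hVe, hE1, e0] at hea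
      have e1 : m + 4 - 1 = m + 2 + 1 := by omega
      rw [hm, e1, hsp]
      have e2 : 2 ^ (m + 4) = 16 * 2 ^ m := by ring
      have e3 : 2 ^ (m + 2) = 4 * 2 ^ m := by ring
      rw [e3] at hea
      rw [e2]
      have h0 : 0 < 2 ^ m := by positivity
      nlinarith

end Pool.Agent.helper41.CL
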