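import Pool.Agent.helper41.CL.SpecC
import Pool.Agent.helper67.CL.WB

set_option autoImplicit false

namespace Pool.Agent.helper41.CL

open Finset

theorem WF : WF_stmt := by
  intro r hr
  have h1 : 2 * r + 2 = (2 + r) + r := by omega
  rw [h1]
  have h2 := SimpleGraph.card_edgeFinset_turanGraph_add (n := 2 + r) (r := r)
  have h3 := WB_two 2 r hr hr
  rw [h2, WB_ch (2 + r) r, ← h3]
  obtain ⟨s, rfl⟩ : ∃ s, r = s + 1 := ⟨r - 1, by omega⟩
  have h4 : s + 1 - 1 = s := by omega
  rw [h4, Nat.mul_succ]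
  omega

end Pool.Agent.helper41.CL
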